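import Mathlib
import Pool.Agent.H881R3.L15

set_option autoImplicit false

open Polynomial

namespace Pool.Agent.Results.MP_f76cdc_ag.NoDivisibility

universe u

section Defs

variable (k : Type u) [Field k]

/-- A meromorphic differential on the projective line over `k` is `g dz` with `g` in the field
`k(z) = RatFunc k`.  It is logarithmic if `g dz = df / f` for some nonzero `f` in `k(z)`, the
equality being taken in the module of Kaehler differentials of `k(z)` over `k`. -/
def IsLogarithmic (g : RatFunc k) : Prop :=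
  ∃ f : RatFunc k, f ≠ 0 ∧
    g • KaehlerDifferential.D k (RatFunc k) RatFunc.X = f⁻¹ • KaehlerDifferential.D k (RatFunc k) f

/-- The order of vanishing of `g dz` at the point at infinity: with the local parameter `1 / z`
the form `dz` has a double pole there, so the order is `- deg g - 2`. -/
noncomputable def ordInfty (g : RatFunc k) : ℤ := -g.intDegree - 2

/-- `IsSpaceL k p m n V`: the additive group `V` of rational functions `g`, standing for the
differentials `g dz`, is a space `L_{m+1,n}` in characteristic `p`.  (As `p V = 0`, an additive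
subgroup is the same as an `F_p`-subspace, and it has dimension `n` iff it has `p ^ n` elements.)
Every nonzero member is logarithmic, has no zero at a finite point, and vanishes at infinity to
order exactly `m - 1`. -/
def IsSpaceL (p m n : ℕ) (V : AddSubgroup (RatFunc k)) : Prop :=
  Nat.card V = p ^ n ∧
    ∀ g ∈ V, g ≠ 0 → IsLogarithmic k g ∧ (∀ x : k, g.num.eval x ≠ 0) ∧
      ordInfty k g = (m : ℤ) - 1

end Defs

section Log

variable {k : Type u} [Field k]

lemma isLog_zero : IsLogarithmic k 0 :=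
  ⟨1, one_ne_zero, by simp⟩

lemma IsLogarithmic.add {g h : RatFunc k} (hg : IsLogarithmic k g) (hh : IsLogarithmic k h) :
    IsLogarithmic k (g + h) := by
  obtain ⟨f, hf, e1⟩ := hg
  obtain ⟨f', hf', e2⟩ := hh
  refine ⟨f * f', mul_ne_zero hf hf', ?_⟩
  rw [add_smul, e1, e2, Derivation.leibniz, smul_add, smul_smul, smul_smul, add_comm]
  congr 2 <;> field_simp

lemma IsLogarithmic.neg {g : RatFunc k} (hg : IsLogarithmic k g) : IsLogarithmic k (-g) := by
  obtain ⟨f, hf, e1⟩ := hg
  refine ⟨f⁻¹, inv_ne_zero hf, ?_⟩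
  rw [neg_smul, e1, Derivation.leibniz_inv, smul_smul, ← neg_smul]
  congr 1
  field_simp

lemma D_poly (F : k[X]) :
    KaehlerDifferential.D k (RatFunc k) (algebraMap k[X] (RatFunc k) F) =
      algebraMap k[X] (RatFunc k) (derivative F) •
        KaehlerDifferential.D k (RatFunc k) RatFunc.X := by
  have h : ∀ P : k[X], algebraMap k[X] (RatFunc k) P = aeval (RatFunc.X : RatFunc k) P := by
    intro P
    have := (Polynomial.aeval_algebraMap_apply (RatFunc k) (X : k[X]) P)
    rw [RatFunc.algebraMap_X] at this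
    rw [this]
    simp
  rw [h, h, Derivation.map_aeval]

/-- If `F' G - F G' = c` and `F G = c Q` then `dz / Q = d log (F / G)`. -/
lemma isLog_of {F G Q : k[X]} {c : k} (hc : c ≠ 0) (hQ : Q ≠ 0)
    (h1 : C c * Q = F * G) (h2 : derivative F * G - F * derivative G = C c) :
    IsLogarithmic k (algebraMap k[X] (RatFunc k) Q)⁻¹ := by
  have hFG : F * G ≠ 0 := by
    rw [← h1]
    exact mul_ne_zero (C_ne_zero.2 hc) hQ
  have hF : F ≠ 0 := left_ne_zero_of_mul hFG
  have hG : G ≠ 0 := right_ne_zero_of_mul hFG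
  set ι := algebraMap k[X] (RatFunc k) with hι
  have hi : ∀ {P : k[X]}, P ≠ 0 → ι P ≠ 0 := fun hP => RatFunc.algebraMap_ne_zero hP
  refine ⟨ι F * (ι G)⁻¹, mul_ne_zero (hi hF) (inv_ne_zero (hi hG)), ?_⟩
  rw [Derivation.leibniz, Derivation.leibniz_inv, D_poly, D_poly, ← hι]
  simp only [smul_smul, ← add_smul]
  congr 1
  have e1 : ι (C c) * ι Q = ι F * ι G := by rw [← map_mul, h1, map_mul]
  have e2 : ι (derivative F) * ι G - ι F * ι (derivative G) = ι (C c) := by
    rw [← map_mul, ← map_mul, ← map_sub, h2]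
  have hcc : ι (C c) ≠ 0 := hi (C_ne_zero.2 hc)
  have hQ' := hi hQ
  have hF' := hi hF
  have hG' := hi hG
  field_simp
  linear_combination -e1 - ι Q * e2

end Log

section Orders

variable {k : Type u} [Field k]

lemma orders {Q : k[X]} (hQ : Q.natDegree = 15) :
    (∀ x : k, ((algebraMap k[X] (RatFunc k) Q)⁻¹).num.eval x ≠ 0) ∧
      ordInfty k ((algebraMap k[X] (RatFunc k) Q)⁻¹) = ((14 : ℕ) : ℤ) - 1 := by
  have hQ0 : Q ≠ 0 := by
    rintro rfl
    simp at hQ
  constructor
  · intro x hx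
    have h := RatFunc.num_inv_dvd (x := algebraMap k[X] (RatFunc k) Q)
      (RatFunc.algebraMap_ne_zero hQ0)
    rw [RatFunc.denom_algebraMap] at h
    have h2 := eval_dvd (x := x) h
    rw [hx, eval_one, zero_dvd_iff] at h2
    exact one_ne_zero h2
  · unfold ordInfty
    rw [RatFunc.intDegree_inv, RatFunc.intDegree_polynomial, hQ]
    norm_num

end Orders

section Main

variable {k : Type u} [Field k]

open Pool.Agent.H881R3.L15

lemma natDegree_quintic {a b c d e f : k} (ha : a ≠ 0) :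
    (C a * X ^ 5 + C b * X ^ 4 + C c * X ^ 3 + C d * X ^ 2 + C e * X + C f).natDegree = 5 := by
  compute_degree!

lemma deg_pa {t : k} (ht : t ^ 3 - t + 1 = 0) : (pa (C t) X : k[X]).natDegree = 5 := by
  have h : (pa (C t) X : k[X]) = C (-t + t ^ 2) * X ^ 5 + C (1 - t ^ 2) * X ^ 4 +
      C (-1 - t - t ^ 2) * X ^ 3 + C (-t ^ 2) * X ^ 2 + C (1 + t - t ^ 2) * X + C t := by
    unfold pa
    simp only [map_add, map_sub, map_neg, map_pow, map_one]
    ring
  have hl : (-t + t ^ 2) ≠ 0 := by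
    intro h0
    apply one_ne_zero (α := k)
    linear_combination (-1 - t) * h0 + ht
  rw [h]
  exact natDegree_quintic hl

lemma deg_pb {t : k} (ht : t ^ 3 - t + 1 = 0) :
    (pb (C t) X : k[X]).natDegree = 5 := by
  have h : (pb (C t) X : k[X]) = C (t ^ 2) * X ^ 5 + C (-t - t ^ 2) * X ^ 4 +
      C 1 * X ^ 3 + C t * X ^ 2 + C t * X + C (-t) := by
    unfold pb
    simp only [map_add, map_sub, map_neg, map_pow, map_one]
    ring
  have hl : (t ^ 2) ≠ 0 := by
    intro h0
    apply one_ne_zero (α := k)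
    have h1 : t = 0 := by simpa using h0
    rw [h1] at ht
    linear_combination ht
  rw [h]
  exact natDegree_quintic hl

lemma deg_add {t : k} (h3 : (3 : k) = 0) (ht : t ^ 3 - t + 1 = 0) :
    (pa (C t) X + pb (C t) X : k[X]).natDegree = 5 := by
  have h : (pa (C t) X + pb (C t) X : k[X]) = C (-t + t ^ 2 + t ^ 2) * X ^ 5 +
      C (1 - t ^ 2 + (-t - t ^ 2)) * X ^ 4 +
      C (-1 - t - t ^ 2 + 1) * X ^ 3 + C (-t ^ 2 + t) * X ^ 2 + C (1 + t - t ^ 2 + t) * X +
      C (t + -t) := by
    unfold pa pb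
    simp only [map_add, map_sub, map_neg, map_pow, map_one]
    ring
  have hl : (-t + t ^ 2 + t ^ 2) ≠ 0 := by
    intro h0
    apply one_ne_zero (α := k)
    linear_combination (t - 1) * h0 + ht - (t ^ 3 - t ^ 2) * h3
  rw [h]
  exact natDegree_quintic hl

lemma deg_sub {t : k} (ht : t ^ 3 - t + 1 = 0) :
    (pa (C t) X - pb (C t) X : k[X]).natDegree = 5 := by
  have h : (pa (C t) X - pb (C t) X : k[X]) = C (-t) * X ^ 5 +
      C (1 - t ^ 2 - (-t - t ^ 2)) * X ^ 4 +
      C (-1 - t - t ^ 2 - 1) * X ^ 3 + C (-t ^ 2 - t) * X ^ 2 + C (1 + t - t ^ 2 - t) * X +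
      C (t + t) := by
    unfold pa pb
    simp only [map_add, map_sub, map_neg, map_pow, map_one]
    ring
  have hl : (-t) ≠ 0 := by
    intro h0
    apply one_ne_zero (α := k)
    linear_combination (t ^ 2 - 1) * h0 + ht
  rw [h]
  exact natDegree_quintic hl

lemma dF1 : derivative (F1 (X : k[X])) = 1 + 7 * X ^ 6 + 9 * X ^ 8 := by
  unfold F1
  simp only [derivative_add, derivative_X, derivative_X_pow, Nat.cast_ofNat, map_ofNat,
    Nat.add_one_sub_one, Nat.reduceSub]

lemma dG1 : derivative (G1 (X : k[X])) = 4 * X ^ 3 + 6 * X ^ 5 := by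
  unfold G1
  simp only [derivative_add, derivative_neg, derivative_one, derivative_X_pow, Nat.cast_ofNat,
    map_ofNat, Nat.reduceSub, neg_zero, zero_add]

lemma dmul (c : k) (n : ℕ) :
    derivative (C c * X ^ (n + 1) : k[X]) = C c * ((n + 1 : ℕ) : k[X]) * X ^ n := by
  rw [derivative_C_mul, derivative_X_pow, map_natCast, Nat.add_sub_cancel, mul_assoc]

lemma dF2 (t : k) : derivative (F2 (C t) (X : k[X])) =
    -1 + C t ^ 2 + 3 * X ^ 2 + 3 * C t * X ^ 2 - 4 * X ^ 3 - 4 * C t * X ^ 3 + 6 * X ^ 5 +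
      6 * C t * X ^ 5 - 7 * X ^ 6 - 7 * C t * X ^ 6 + 9 * X ^ 8 := by
  have e : F2 (C t) (X : k[X]) = C (-t ^ 2) + C (-1 + t ^ 2) * X ^ (0 + 1) +
      C (1 + t) * X ^ (2 + 1) + C (-1 - t) * X ^ (3 + 1) + C (1 + t) * X ^ (5 + 1) +
      C (-1 - t) * X ^ (6 + 1) + C 1 * X ^ (8 + 1) := by
    unfold F2
    simp only [map_add, map_sub, map_neg, map_pow, map_one]
    ring
  rw [e]
  simp only [derivative_add, dmul, derivative_C]
  simp only [map_add, map_sub, map_neg, map_pow, map_one]
  push_cast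
  ring

lemma dG2 (t : k) : derivative (G2 (C t) (X : k[X])) =
    1 + C t - 3 * X ^ 2 + 3 * C t * X ^ 2 - 4 * X ^ 3 - 4 * C t * X ^ 3 + 6 * X ^ 5 := by
  have e : G2 (C t) (X : k[X]) = C (1 + t) * X ^ (0 + 1) + C (-1 + t) * X ^ (2 + 1) +
      C (-1 - t) * X ^ (3 + 1) + C 1 * X ^ (5 + 1) := by
    unfold G2
    simp only [map_add, map_sub, map_neg, map_pow, map_one]
    ring
  rw [e]
  simp only [derivative_add, dmul]
  simp only [map_add, map_sub, map_neg, map_pow, map_one]
  push_cast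
  ring

/-- The nonzero combinations of the two differentials are inverses of polynomials of degree
fifteen. -/
lemma combos {t : k} (h3 : (3 : k) = 0) (ht : t ^ 3 - t + 1 = 0) (i j : ZMod 3) (c : ZMod 3 →+* k)
    (hij : ¬ (i = 0 ∧ j = 0)) :
    ∃ Q : k[X], Q.natDegree = 15 ∧
      (C (c i) * pa (C t) X + C (c j) * pb (C t) X) * Q =
        pa (C t) X ^ 3 * pb (C t) X - pa (C t) X * pb (C t) X ^ 3 := by
  have da := deg_pa ht
  have db := deg_pb ht
  have ds := deg_add h3 ht
  have dd := deg_sub ht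
  set A : k[X] := pa (C t) X with hA
  set B : k[X] := pb (C t) X with hB
  have h3' : (3 : k[X]) = 0 := by
    have : (3 : k[X]) = C (3 : k) := (map_ofNat C 3).symm
    rw [this, h3, map_zero]
  have nz : ∀ {P : k[X]}, P.natDegree = 5 → P ≠ 0 := by
    intro P hP h
    rw [h] at hP
    simp at hP
  have deg3 : ∀ P Q R : k[X], P.natDegree = 5 → Q.natDegree = 5 → R.natDegree = 5 →
      (P * Q * R).natDegree = 15 := by
    intro P Q R hP hQ hR
    rw [natDegree_mul (mul_ne_zero (nz hP) (nz hQ)) (nz hR), natDegree_mul (nz hP) (nz hQ),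
      hP, hQ, hR]
  have c0 : c 0 = 0 := map_zero c
  have c1 : c 1 = 1 := map_one c
  have c2 : c 2 = -1 := by
    have : (2 : ZMod 3) = -1 := by decide
    rw [this, map_neg, map_one]
  have hC : C (-1 : k) = -1 := by simp
  have three : ∀ i : ZMod 3, i = 0 ∨ i = 1 ∨ i = 2 := by decide
  rcases three i with rfl | rfl | rfl <;> rcases three j with rfl | rfl | rfl
  · exact absurd ⟨rfl, rfl⟩ hij
  · refine ⟨A * (A + B) * (A - B), deg3 _ _ _ da ds dd, ?_⟩
    rw [c0, c1, map_zero, map_one]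
    ring
  · refine ⟨A * (A + B) * (B - A), deg3 _ _ _ da ds (by rw [natDegree_sub, dd]), ?_⟩
    rw [c0, c2, map_zero, hC]
    ring
  · refine ⟨B * (A + B) * (A - B), deg3 _ _ _ db ds dd, ?_⟩
    rw [c0, c1, map_zero, map_one]
    ring
  · refine ⟨A * B * (A - B), deg3 _ _ _ da db dd, ?_⟩
    rw [c1, map_one]
    ring
  · refine ⟨A * B * (A + B), deg3 _ _ _ da db ds, ?_⟩
    rw [c1, c2, map_one, hC]
    ring
  · refine ⟨B * (A + B) * (B - A), deg3 _ _ _ db ds (by rw [natDegree_sub, dd]), ?_⟩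
    rw [c0, c2, map_zero, hC]
    ring
  · refine ⟨A * (-B) * (A + B), deg3 _ _ _ da (by rw [natDegree_neg, db]) ds, ?_⟩
    rw [c1, c2, map_one, hC]
    ring
  · refine ⟨A * B * (B - A), deg3 _ _ _ da db (by rw [natDegree_sub, dd]), ?_⟩
    rw [c2, hC]
    ring

/-- In characteristic three there is a space `L_{15,2}`. -/
theorem exists_space (k : Type u) [Field k] [IsAlgClosed k] [CharP k 3] :
    ∃ V : AddSubgroup (RatFunc k), IsSpaceL k 3 14 2 V := by
  have h3 : (3 : k) = 0 := by
    have := CharP.cast_eq_zero k 3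
    exact_mod_cast this
  have h3' : (3 : k[X]) = 0 := by
    have : (3 : k[X]) = C (3 : k) := (map_ofNat C 3).symm
    rw [this, h3, map_zero]
  obtain ⟨t, ht⟩ : ∃ t : k, t ^ 3 - t + 1 = 0 := by
    obtain ⟨t, ht⟩ := IsAlgClosed.exists_root (X ^ 3 - X + 1 : k[X]) (by
      have : (X ^ 3 - X + 1 : k[X]).degree = 3 := by compute_degree!
      rw [this]
      decide)
    refine ⟨t, ?_⟩
    simpa [IsRoot] using ht
  have hT : (C t : k[X]) ^ 3 - C t + 1 = 0 := by
    rw [← map_pow, ← map_sub, ← map_one (C : k →+* k[X]), ← map_add, ht, map_zero]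
  set ι := algebraMap k[X] (RatFunc k) with hι
  set A : k[X] := pa (C t) X with hA
  set B : k[X] := pb (C t) X with hB
  set M : k[X] := A ^ 3 * B - A * B ^ 3 with hM
  set c : ZMod 3 →+* k := ZMod.castHom (dvd_refl 3) k with hc
  have comb := fun i j hij => combos h3 ht i j c hij
  have hM0 : M ≠ 0 := by
    have da := deg_pa ht
    have db := deg_pb ht
    have ds := deg_add h3 ht
    have dd := deg_sub ht
    have nz : ∀ {P : k[X]}, P.natDegree = 5 → P ≠ 0 := by
      intro P hP h
      rw [h] at hP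
      simp at hP
    have : M = A * B * (A + B) * (A - B) := by
      rw [hM]; ring
    rw [this]
    exact mul_ne_zero (mul_ne_zero (mul_ne_zero (nz da) (nz db)) (nz ds)) (nz dd)
  have hιM : ι M ≠ 0 := RatFunc.algebraMap_ne_zero hM0
  let φ : ZMod 3 × ZMod 3 →+ RatFunc k :=
    { toFun := fun p => ι (C (c p.1) * A + C (c p.2) * B) / ι M
      map_zero' := by simp
      map_add' := by
        intro p q
        simp only [Prod.fst_add, Prod.snd_add, map_add, map_mul]
        field_simp
        ring }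
  have hφ : ∀ p : ZMod 3 × ZMod 3, φ p = ι (C (c p.1) * A + C (c p.2) * B) / ι M := fun _ => rfl
  have key : ∀ p : ZMod 3 × ZMod 3, p ≠ 0 → ∃ Q : k[X], Q.natDegree = 15 ∧ φ p = (ι Q)⁻¹ := by
    rintro ⟨i, j⟩ hp
    obtain ⟨Q, hQ, e⟩ := comb i j (by
      rintro ⟨rfl, rfl⟩
      exact hp rfl)
    have hQ0 : Q ≠ 0 := by
      rintro rfl
      simp at hQ
    refine ⟨Q, hQ, ?_⟩
    rw [hφ]
    have hQ1 : ι Q ≠ 0 := RatFunc.algebraMap_ne_zero hQ0
    rw [div_eq_iff hιM, eq_comm, inv_mul_eq_iff_eq_mul₀ hQ1, mul_comm (ι Q), ← map_mul, e]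
  have inj : Function.Injective φ := by
    rw [injective_iff_map_eq_zero]
    intro p hp
    by_contra hne
    obtain ⟨Q, hQ, e⟩ := key p hne
    have hQ0 : Q ≠ 0 := by
      rintro rfl
      simp at hQ
    rw [hp] at e
    exact inv_ne_zero (RatFunc.algebraMap_ne_zero hQ0) e.symm
  have l1 : IsLogarithmic k (φ (1, 0)) := by
    have e : φ (1, 0) = (ι (B * (A ^ 2 - B ^ 2)))⁻¹ := by
      rw [hφ]
      have hQ0 : B * (A ^ 2 - B ^ 2) ≠ 0 := by
        intro h
        apply hM0
        have : M = A * (B * (A ^ 2 - B ^ 2)) := by rw [hM]; ring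
        rw [this, h, mul_zero]
      have hQ1 : ι (B * (A ^ 2 - B ^ 2)) ≠ 0 := RatFunc.algebraMap_ne_zero hQ0
      rw [div_eq_iff hιM, eq_comm, inv_mul_eq_iff_eq_mul₀ hQ1, ← map_mul]
      congr 1
      simp only [map_one, map_zero, hM]
      ring
    rw [e]
    have hQ0 : B * (A ^ 2 - B ^ 2) ≠ 0 := by
      intro h
      apply hM0
      have : M = A * (B * (A ^ 2 - B ^ 2)) := by rw [hM]; ring
      rw [this, h, mul_zero]
    refine isLog_of (F := F1 X) (G := G1 X) (c := -1) (neg_ne_zero.2 one_ne_zero) hQ0 ?_ ?_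
    · rw [← id1 (C t) X h3' hT, map_neg, map_one]
    · rw [map_neg, map_one, ← wr1 (X : k[X]) h3']
      rw [dF1, dG1]
  have l2 : IsLogarithmic k (φ (0, 1)) := by
    have hQ0 : A * (A ^ 2 - B ^ 2) ≠ 0 := by
      intro h
      apply hM0
      have : M = B * (A * (A ^ 2 - B ^ 2)) := by rw [hM]; ring
      rw [this, h, mul_zero]
    have e : φ (0, 1) = (ι (A * (A ^ 2 - B ^ 2)))⁻¹ := by
      rw [hφ]
      have hQ1 : ι (A * (A ^ 2 - B ^ 2)) ≠ 0 := RatFunc.algebraMap_ne_zero hQ0
      rw [div_eq_iff hιM, eq_comm, inv_mul_eq_iff_eq_mul₀ hQ1, ← map_mul]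
      congr 1
      simp only [map_one, map_zero, hM]
      ring
    rw [e]
    have hc0 : (-1 + t + t ^ 2) ≠ 0 := by
      intro h0
      apply one_ne_zero (α := k)
      linear_combination (-t ^ 2) * h0 + (t + 1) * ht
    refine isLog_of (F := F2 (C t) X) (G := G2 (C t) X) (c := -1 + t + t ^ 2) hc0 hQ0 ?_ ?_
    · rw [← id2 (C t) X h3' hT, map_add, map_add, map_neg, map_one, map_pow]
    · have := wr2 (C t) (X : k[X]) h3' hT
      have e2 : C (-1 + t + t ^ 2) = -1 + C t + C t ^ 2 := by simp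
      rw [e2, ← this]
      rw [dF2, dG2]
  have lall : ∀ p, IsLogarithmic k (φ p) := by
    have hadd : ∀ p q, IsLogarithmic k (φ p) → IsLogarithmic k (φ q) →
        IsLogarithmic k (φ (p + q)) := by
      intro p q hp hq
      rw [map_add]
      exact hp.add hq
    have h0 : IsLogarithmic k (φ 0) := by
      rw [map_zero]
      exact isLog_zero
    have hn : ∀ p, IsLogarithmic k (φ p) → ∀ n : ℕ, IsLogarithmic k (φ (n • p)) := by
      intro p hp n
      induction n with
      | zero => rw [zero_smul]; exact h0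
      | succ n ih => rw [succ_nsmul]; exact hadd _ _ ih hp
    rintro ⟨i, j⟩
    have : ((i, j) : ZMod 3 × ZMod 3) = i.val • (1, 0) + j.val • (0, 1) := by
      ext <;> simp
    rw [this]
    exact hadd _ _ (hn _ l1 _) (hn _ l2 _)
  refine ⟨φ.range, ?_, ?_⟩
  · have : Nat.card φ.range = Nat.card (ZMod 3 × ZMod 3) :=
      (Nat.card_congr (AddMonoidHom.ofInjective inj).toEquiv).symm
    rw [this, Nat.card_prod, Nat.card_zmod]
    norm_num
  · rintro g ⟨p, rfl⟩ hg
    have hp : p ≠ 0 := by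
      rintro rfl
      exact hg (map_zero φ)
    obtain ⟨Q, hQ, e⟩ := key p hp
    refine ⟨lall p, ?_⟩
    rw [e]
    exact orders hQ

end Main

/-- Question Q2 has a negative answer: over every algebraically closed field `k` of characteristic
three there is a space `L_{15,2}` (that is `m = 14`, `n = 2`), whereas `3 ^ (2 - 1) * (3 - 1) = 6`
does not divide `15`; so it is not true that `p ^ (n - 1) * (p - 1)` divides `m + 1` whenever
`n ≥ 2` and a space `L_{m+1,n}` exists. -/
theorem result :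
    (∀ (k : Type u) [Field k] [IsAlgClosed k] [CharP k 3],
      ∃ V : AddSubgroup (RatFunc k), IsSpaceL k 3 14 2 V) ∧
    ¬ (∀ (p : ℕ) [Fact p.Prime] (k : Type u) [Field k] [IsAlgClosed k] [CharP k p] (m n : ℕ),
        1 ≤ m → 2 ≤ n → (∃ V : AddSubgroup (RatFunc k), IsSpaceL k p m n V) →
          p ^ (n - 1) * (p - 1) ∣ m + 1) := by
  refine ⟨fun k => exists_space k, fun h => ?_⟩
  have : Fact (Nat.Prime 3) := ⟨Nat.prime_three⟩
  have : CharP (ULift.{u} (ZMod 3)) 3 := inferInstance
  have : CharP (AlgebraicClosure (ULift.{u} (ZMod 3))) 3 :=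
    charP_of_injective_algebraMap (algebraMap (ULift.{u} (ZMod 3))
      (AlgebraicClosure (ULift.{u} (ZMod 3)))).injective 3
  have := h 3 (AlgebraicClosure (ULift.{u} (ZMod 3))) 14 2 (by norm_num) le_rfl
    (exists_space _)
  revert this
  decide

end Pool.Agent.Results.MP_f76cdc_ag.NoDivisibility
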